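import Mathlib

set_option autoImplicit false

namespace Pool.Agent.Results.MP_d14d1f_al.NotGood

/-- The wreath product of the cyclic group of order 30 with the symmetric group of degree 4. -/
abbrev G : Type :=
  (Fin 4 → Multiplicative (ZMod 30)) ⋊[mulAutArrow] Equiv.Perm (Fin 4)

def mk (a b c d : ZMod 30) (s : Equiv.Perm (Fin 4)) : G :=
  ⟨![Multiplicative.ofAdd a, Multiplicative.ofAdd b, Multiplicative.ofAdd c,
    Multiplicative.ofAdd d], s⟩

def g1 : G := mk 15 0 10 6 (Equiv.swap 0 1)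
def g2 : G := mk 10 0 15 6 (Equiv.swap 1 2)
def g3 : G := mk 10 6 0 15 (Equiv.swap 2 3)

lemma gext (g h : G) : g = h ↔ (∀ i, g.left i = h.left i) ∧ ∀ i, g.right i = h.right i := by
  constructor
  · rintro rfl
    exact ⟨fun _ => rfl, fun _ => rfl⟩
  · rintro ⟨h1, h2⟩
    exact SemidirectProduct.ext (funext h1) (Equiv.ext h2)

lemma r12 : g1 * (g2 * g1 * g2⁻¹) * g1⁻¹ = g2 := by rw [gext]; decide +kernel
lemma r23 : g2 * (g3 * g2 * g3⁻¹) * g2⁻¹ = g3 := by rw [gext]; decide +kernel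

lemma comm (y w : G) (hy : y.right = 1) (h : mulAutArrow w.right y.left = y.left) :
    y * w * y⁻¹ = w := by
  rw [mul_inv_eq_iff_eq_mul]
  ext1
  · rw [SemidirectProduct.mul_left, SemidirectProduct.mul_left, hy, h, map_one,
      MulAut.one_apply, mul_comm]
  · rw [SemidirectProduct.mul_right, SemidirectProduct.mul_right, hy, one_mul, mul_one]

lemma p2 : g1 ^ 2 = mk 15 15 20 12 1 := by rw [pow_two, gext]; decide +kernel
lemma p4 : g1 ^ 4 = mk 0 0 10 24 1 := by
  refine (pow_add g1 2 2).trans ?_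
  rw [p2, gext]; decide +kernel
lemma p8 : g1 ^ 8 = mk 0 0 20 18 1 := by
  refine (pow_add g1 4 4).trans ?_
  rw [p4, gext]; decide +kernel
lemma p12 : g1 ^ 12 = mk 0 0 0 12 1 := by
  refine (pow_add g1 8 4).trans ?_
  rw [p4, p8, gext]; decide +kernel
lemma p20 : g1 ^ 20 = mk 0 0 20 0 1 := by
  refine (pow_add g1 12 8).trans ?_
  rw [p12, p8, gext]; decide +kernel
lemma p10 : g1 ^ 10 = mk 15 15 10 0 1 := by
  refine (pow_add g1 8 2).trans ?_
  rw [p2, p8, gext]; decide +kernel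
lemma p30 : g1 ^ 30 = mk 15 15 0 0 1 := by
  refine (pow_add g1 20 10).trans ?_
  rw [p20, p10, gext]; decide +kernel

lemma cover : ∀ a b : Fin 4, a ≠ b →
    mulAutArrow (Equiv.swap a b) (mk 15 15 0 0 1).left = (mk 15 15 0 0 1).left ∨
    mulAutArrow (Equiv.swap a b) (mk 0 0 20 0 1).left = (mk 0 0 20 0 1).left ∨
    mulAutArrow (Equiv.swap a b) (mk 0 0 0 12 1).left = (mk 0 0 0 12 1).left := by
  decide +kernel

lemma n30 : mk 15 15 0 0 1 * g2 * (mk 15 15 0 0 1)⁻¹ ≠ g2 := by rw [Ne, gext]; decide +kernel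
lemma n20 : mk 0 0 20 0 1 * g2 * (mk 0 0 20 0 1)⁻¹ ≠ g2 := by rw [Ne, gext]; decide +kernel
lemma n12 : mk 0 0 0 12 1 * g3 * (mk 0 0 0 12 1)⁻¹ ≠ g3 := by rw [Ne, gext]; decide +kernel

instance : Finite G := Finite.of_equiv _ SemidirectProduct.equivProd.symm

def H : Subgroup G := Subgroup.closure {g1, g2, g3}

def c1 : H := ⟨g1, Subgroup.subset_closure (by simp)⟩
def c2 : H := ⟨g2, Subgroup.subset_closure (by simp)⟩
def c3 : H := ⟨g3, Subgroup.subset_closure (by simp)⟩

lemma i12 : IsConj c1 c2 := by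
  rw [isConj_iff]
  refine ⟨c1 * c2, Subtype.ext ?_⟩
  change g1 * g2 * g1 * (g1 * g2)⁻¹ = g2
  rw [← r12]
  conv_lhs => rw [r12]
  group

lemma i23 : IsConj c2 c3 := by
  rw [isConj_iff]
  refine ⟨c2 * c3, Subtype.ext ?_⟩
  change g2 * g3 * g2 * (g2 * g3)⁻¹ = g3
  rw [← r23]
  conv_lhs => rw [r23]
  group

lemma gen : Subgroup.closure {g : H | IsConj c1 g} = ⊤ := by
  rw [eq_top_iff]
  refine (Subgroup.closure_closure_coe_preimage (k := {g1, g2, g3})).ge.trans
    (Subgroup.closure_mono ?_)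
  rintro ⟨g, hg⟩ h
  simp only [Set.mem_preimage, Set.mem_insert_iff, Set.mem_singleton_iff] at h
  rcases h with rfl | rfl | rfl
  · exact IsConj.refl c1
  · exact i12
  · exact i12.trans i23

lemma swap_of (z : H) (hz : IsConj c1 z) : (z : G).right.IsSwap := by
  obtain ⟨g, rfl⟩ := isConj_iff.mp hz
  refine ⟨(g : G).right 0, (g : G).right 1, fun e' => absurd ((g : G).right.injective e') (by decide), ?_⟩
  rw [Equiv.swap_apply_apply]
  rfl

lemma transfer (z w : H) (n : ℕ) (h : ∀ k : ℤ, c1 ^ k ∈ Subgroup.center H ↔ Commute (c1 ^ k) z)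
    (hz : g1 ^ n * z * (g1 ^ n)⁻¹ = z) : g1 ^ n * w * (g1 ^ n)⁻¹ = w := by
  have h1 := (h n).mpr (by
    rw [zpow_natCast]
    apply Subtype.ext
    exact mul_inv_eq_iff_eq_mul.mp hz)
  rw [zpow_natCast, Subgroup.mem_center_iff] at h1
  rw [mul_inv_eq_iff_eq_mul]
  exact (congrArg Subtype.val (h1 w)).symm

/-- There are a finite group, an element `c` whose conjugacy class generates the group, such that
for every `z` in the class of `c` some power of `c` commutes with `z` without being central. -/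
theorem result :
    ∃ (Γ : Type) (_ : Group Γ) (_ : Finite Γ) (c : Γ),
      Subgroup.closure {g : Γ | IsConj c g} = ⊤ ∧
      ∀ z : Γ, IsConj c z → ∃ k : ℤ, Commute (c ^ k) z ∧ c ^ k ∉ Subgroup.center Γ := by
  refine ⟨H, inferInstance, inferInstance, c1, gen, fun z hz => ?_⟩
  by_contra hcon
  push Not at hcon
  have hw : ∀ k : ℤ, c1 ^ k ∈ Subgroup.center H ↔ Commute (c1 ^ k) z :=
    fun k => ⟨fun h => (Subgroup.mem_center_iff.mp h z).symm, hcon k⟩
  obtain ⟨a, b, hab, e⟩ := swap_of z hz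
  rcases cover a b hab with h1 | h1 | h1
  · have := transfer z c2 30 hw (by rw [p30]; exact comm _ _ rfl (by rw [e]; exact h1))
    rw [p30] at this
    exact n30 this
  · have := transfer z c2 20 hw (by rw [p20]; exact comm _ _ rfl (by rw [e]; exact h1))
    rw [p20] at this
    exact n20 this
  · have := transfer z c3 12 hw (by rw [p12]; exact comm _ _ rfl (by rw [e]; exact h1))
    rw [p12] at this
    exact n12 this

end Pool.Agent.Results.MP_d14d1f_al.NotGood
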